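import Pool.Agent.Lib.P913V.VPar

/-!
# One arrival
-/

set_option autoImplicit false

namespace P913

theorem count_map_not (l : List Bool) : (l.map not).count true = l.count false := by
  induction l with
  | nil => rfl
  | cons c l ih => cases c <;> simp [ih]

theorem count_rE (n : ℕ) : (rE n).count false = 0 := by
  induction n with
  | zero => rfl
  | succ n ih =>
    have : rE (n + 1) = true :: rE n := rfl
    rw [this, List.count_cons, ih]
    rfl

private theorem drop_rE (a : ℕ) (Z : List Bool) : (rE a ++ Z).drop a = Z := by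
  rw [List.drop_append, List.drop_eq_nil_of_le (by simp)]
  simp

private theorem arrE (a : ℕ) (X Y : List Bool) :
    Zn (rE a ++ (X ++ true :: true :: Y)) a a (r0 X.length ++ true :: r0 (Y.length + a))
      (X.map not ++ false :: (Y ++ rE a).map not) := by
  unfold Zn
  rw [drop_rE]
  have h := VRun.zero (Y ++ rE a)
  have h1 := (VRun.zero X).append (VRun.e1 h)
  simp only [List.length_append, List.length_replicate] at h1
  simpa using h1

private theorem arrZ (a : ℕ) (d : Bool) (X Y : List Bool) :
    Zn (rE (a + 2) ++ (X ++ false :: d :: Y)) (a + 2) a (r0 X.length ++ true :: false :: r0 (1 + Y.length + a))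
      (X.map not ++ true :: false :: (d :: Y ++ rE a).map not) := by
  unfold Zn
  rw [drop_rE]
  have h := VRun.zero (d :: Y ++ rE a)
  have h1 := (VRun.zero X).append (VRun.z1 h)
  have h2 : (d :: Y ++ rE a).length = 1 + Y.length + a := by
    simp only [List.cons_append, List.length_cons, List.length_append, List.length_replicate]
    omega
  rw [h2] at h1
  simpa using h1

namespace VPar

variable (q : VPar)

theorem flat_len (i : Bool) (k : ℕ) (l : List ℕ) : (l.flatMap (q.cell i k)).length = 2 * l.length := by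
  induction l with
  | nil => rfl
  | cons a l ih =>
    simp only [List.flatMap_cons, List.length_append, ih, List.length_cons, cell, List.length_nil]
    omega

theorem arm_split (i : Bool) (k a j : ℕ) (ha : a ≤ 2 * q.R + 6 * q.C + 6) (hj : j ≤ 3 * q.R + q.C) :
    ∃ X Y : List Bool, q.armP i k = rE a ++ (X ++ (q.cell i k j ++ Y)) ∧
      X.length = 2 * q.R + 6 * q.C + 6 - a + 2 * j ∧ X.length + Y.length + a + 2 = 16 * q.r + 1 := by
  obtain ⟨m, hm⟩ : ∃ m, 3 * q.R + q.C + 1 = j + (m + 1) := ⟨3 * q.R + q.C - j, by omega⟩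
  have h1 : List.range (3 * q.R + q.C + 1) = List.range j ++ (j :: (List.range m).map fun x => j + (x + 1)) := by
    rw [hm, List.range_add, List.range_succ_eq_map]
    simp
  have h2 : rE (2 * q.R + 6 * q.C + 6) = rE a ++ rE (2 * q.R + 6 * q.C + 6 - a) := by
    rw [← List.replicate_add]
    congr 1
    omega
  refine ⟨rE (2 * q.R + 6 * q.C + 6 - a) ++ (List.range j).flatMap (q.cell i k),
    ((List.range m).map fun x => j + (x + 1)).flatMap (q.cell i k) ++ rE (8 * q.r + 1), ?_, ?_, ?_⟩
  · unfold armP
    rw [h1, h2]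
    simp only [List.append_assoc, List.flatMap_append, List.flatMap_cons]
  · rw [List.length_append, List.length_replicate, flat_len, List.length_range]
  · rw [List.length_append, List.length_append, List.length_replicate, List.length_replicate, flat_len, flat_len,
      List.length_range, List.length_map, List.length_range]
    unfold r
    omega

theorem armP_begE (i : Bool) (k a : ℕ) (ha : a ≤ 2 * q.R + 6 * q.C + 6) : BegE a (q.armP i k) := by
  obtain ⟨X, Y, h, _⟩ := q.arm_split i k a 0 ha (by omega)
  exact ⟨_, h⟩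

private theorem cell_eq (i : Bool) (k b y : ℕ) (_hy : y ≤ q.R + q.C) :
    q.cell i k (2 * b + (q.R + q.C - y)) = [!(q.hit i k (2 * (b : ℤ) - y)),
      !(decide (k = 0) && (q.g i (2 * (b : ℤ) - y)).isNone)] := by
  have h : ((2 * b + (q.R + q.C - y) : ℕ) : ℤ) - (q.R + q.C) = 2 * (b : ℤ) - y := by
    have : ((q.R + q.C - y : ℕ) : ℤ) = (q.R : ℤ) + q.C - y := by
      rw [Nat.cast_sub _hy]
      push_cast
      ring
    push_cast [this]
    ring
  unfold cell
  rw [h]

/-- an arrival which hits -/
theorem arr_hit (i : Bool) (k b y : ℕ) (hb : b ≤ q.R) (hy : y + 1 ≤ q.R + q.C)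
    (hh : q.hit i k (2 * (b : ℤ) - y) = true) :
    ∃ w, Zn (q.armP i k) (2 * (q.R + q.C - y)) (2 * (q.R + q.C - (y + 1))) (q.arrD b) w ∧ w.length = 16 * q.r ∧
      w.count true = (q.armP i k).count false := by
  obtain ⟨X, Y, h, hX, hY⟩ := q.arm_split i k (2 * (q.R + q.C - y)) (2 * b + (q.R + q.C - y)) (by omega) (by omega)
  rw [cell_eq q i k b y (by omega), hh] at h
  obtain ⟨a, ha⟩ : ∃ a, q.R + q.C - y = a + 1 := ⟨q.R + q.C - y - 1, by omega⟩
  have ha' : q.R + q.C - (y + 1) = a := by omega
  rw [ha] at h hX hY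
  rw [ha', ha]
  have h2 := arrZ (2 * a) (!(decide (k = 0) && (q.g i (2 * (b : ℤ) - y)).isNone)) X Y
  have e1 : 2 * (a + 1) = 2 * a + 2 := by ring
  rw [e1] at h hX hY ⊢
  rw [h]
  have e2 : q.arrD b = r0 X.length ++ true :: false :: r0 (1 + Y.length + 2 * a) := by
    unfold arrD
    have e3 : X.length = 2 * q.R + 6 * q.C + 6 + 4 * b := by omega
    have e4 : 16 * q.r - 1 - (2 * q.R + 6 * q.C + 6 + 4 * b) = (1 + Y.length + 2 * a) + 1 := by omega
    rw [e3, e4]
    rfl
  rw [e2]
  refine ⟨_, h2, ?_, ?_⟩
  · simp only [List.length_append, List.length_map, List.length_cons, List.length_replicate]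
    omega
  · simp only [List.map_cons, List.map_append, List.count_append, List.count_cons, count_map_not,
      List.cons_append, List.nil_append, count_rE]
    simp

/-- an arrival which does not hit -/
theorem arr_pass (i : Bool) (k b y : ℕ) (hb : b ≤ q.R) (hy : y ≤ q.R + q.C)
    (hh : q.hit i k (2 * (b : ℤ) - y) = false) (hn : k = 0 → (q.g i (2 * (b : ℤ) - y)).isNone = false) :
    ∃ w, Zn (q.armP i k) (2 * (q.R + q.C - y)) (2 * (q.R + q.C - y)) (q.arrD b) w ∧ w.length = 16 * q.r ∧
      w.count true = (q.armP i k).count false := by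
  obtain ⟨X, Y, h, hX, hY⟩ := q.arm_split i k (2 * (q.R + q.C - y)) (2 * b + (q.R + q.C - y)) (by omega) (by omega)
  rw [cell_eq q i k b y (by omega), hh] at h
  have hd : (decide (k = 0) && (q.g i (2 * (b : ℤ) - y)).isNone) = false := by
    by_cases hk : k = 0
    · rw [hn hk]; simp
    · simp [hk]
  rw [hd] at h
  have h2 := arrE (2 * (q.R + q.C - y)) X Y
  rw [h]
  have e2 : q.arrD b = r0 X.length ++ true :: r0 (Y.length + 2 * (q.R + q.C - y)) := by
    unfold arrD
    have e3 : X.length = 2 * q.R + 6 * q.C + 6 + 4 * b := by omega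
    have e4 : 16 * q.r - 1 - (2 * q.R + 6 * q.C + 6 + 4 * b) = Y.length + 2 * (q.R + q.C - y) := by omega
    rw [e3, e4]
  rw [e2]
  refine ⟨_, h2, ?_, ?_⟩
  · simp only [List.length_append, List.length_map, List.length_cons, List.length_replicate]
    omega
  · simp only [List.map_append, List.count_append, List.count_cons, count_map_not,
      List.cons_append, List.nil_append, count_rE]
    simp

/-- an arrival which halts -/
theorem arr_halt (i : Bool) (b y : ℕ) (hb : b ≤ q.R) (hy : y ≤ q.R + q.C)
    (hn : q.g i (2 * (b : ℤ) - y) = none) :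
    VHalt ((q.armP i 0).drop (2 * (q.R + q.C - y))) (q.arrD b) := by
  obtain ⟨X, Y, h, hX, hY⟩ := q.arm_split i 0 (2 * (q.R + q.C - y)) (2 * b + (q.R + q.C - y)) (by omega) (by omega)
  have hh : q.hit i 0 (2 * (b : ℤ) - y) = false := by
    unfold hit
    simp only [Nat.cast_zero, add_zero]
    rw [hn]
  rw [cell_eq q i 0 b y (by omega), hh, hn] at h
  rw [h, drop_rE]
  have e3 : X.length = 2 * q.R + 6 * q.C + 6 + 4 * b := by omega
  refine ⟨X, Y, r0 X.length, r0 (16 * q.r - 1 - (2 * q.R + 6 * q.C + 6 + 4 * b)), X.map not, ?_, ?_, VRun.zero X⟩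
  · simp
  · unfold arrD
    rw [e3]

end VPar

end P913
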