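import Pool.Agent.Lib.P913.GInst28V

/-!
# Runs of the system V

Program letters: `true` = E, `false` = Z.  The rules are (program, data) ↦ output: `(E, 0) ↦ 0`, `(EE, 1) ↦ 0`,
`(Z, 0) ↦ 1`, `(Z, 10) ↦ 10`; the system halts at `(EZ, 1)`.
-/

set_option autoImplicit false

namespace P913

/-- runs of the system V: consumed program word, consumed data word, output word -/
inductive VRun : List Bool → List Bool → List Bool → Prop
  | nil : VRun [] [] []
  | e0 {P v w : List Bool} : VRun P v w → VRun (true :: P) (false :: v) (false :: w)
  | e1 {P v w : List Bool} : VRun P v w → VRun (true :: true :: P) (true :: v) (false :: w)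
  | z0 {P v w : List Bool} : VRun P v w → VRun (false :: P) (false :: v) (true :: w)
  | z1 {P v w : List Bool} : VRun P v w → VRun (false :: P) (true :: false :: v) (true :: false :: w)

/-- the system halts inside the program word `P` and the data word `v` -/
def VHalt (P v : List Bool) : Prop :=
  ∃ P1 P2 v1 v2 w : List Bool, P = P1 ++ true :: false :: P2 ∧ v = v1 ++ true :: v2 ∧ VRun P1 v1 w

/-- a word of letters E (or ones) -/
abbrev rE (n : ℕ) : List Bool := List.replicate n true

/-- a word of zeros (or letters Z) -/
abbrev r0 (n : ℕ) : List Bool := List.replicate n false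

/-- every letter `c` is replaced by `c 0` -/
def dbl (w : List Bool) : List Bool := w.flatMap fun c => [c, false]

/-- a zone: program word `P`, phase `a` at the beginning and `b` at the end -/
def Zn (P : List Bool) (a b : ℕ) (v w : List Bool) : Prop := VRun (P.drop a ++ rE b) v w

theorem VRun.append {P v w P' v' w' : List Bool} (h : VRun P v w) (h' : VRun P' v' w') :
    VRun (P ++ P') (v ++ v') (w ++ w') := by
  induction h with
  | nil => exact h'
  | e0 _ ih => exact VRun.e0 ih
  | e1 _ ih => exact VRun.e1 ih
  | z0 _ ih => exact VRun.z0 ih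
  | z1 _ ih => exact VRun.z1 ih

/-- data and output have the same length -/
theorem VRun.length_eq {P v w : List Bool} (h : VRun P v w) : v.length = w.length := by
  induction h with
  | nil => rfl
  | e0 _ ih => simp [ih]
  | e1 _ ih => simp [ih]
  | z0 _ ih => simp [ih]
  | z1 _ ih => simp [ih]

/-- without data ones the output is the complement of the program -/
theorem VRun.zero (P : List Bool) : VRun P (r0 P.length) (P.map not) := by
  induction P with
  | nil => exact VRun.nil
  | cons c P ih =>
    cases c with
    | true => exact VRun.e0 ih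
    | false => exact VRun.z0 ih

/-- a run of letters E is neutral -/
theorem VRun.erun (v : List Bool) : VRun (rE (v.length + v.count true)) v (r0 v.length) := by
  induction v with
  | nil => exact VRun.nil
  | cons c v ih =>
    cases c with
    | false =>
      have h : (false :: v).length + (false :: v).count true = (v.length + v.count true) + 1 := by
        simp; omega
      rw [h, List.length_cons]
      exact VRun.e0 ih
    | true =>
      have h : (true :: v).length + (true :: v).count true = (v.length + v.count true) + 2 := by
        simp; omega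
      rw [h, List.length_cons]
      exact VRun.e1 ih

theorem VHalt.of_run {P v w P' v' : List Bool} (h : VRun P v w) (h' : VHalt P' v') : VHalt (P ++ P') (v ++ v') := by
  obtain ⟨P1, P2, v1, v2, w', rfl, rfl, h1⟩ := h'
  exact ⟨P ++ P1, P2, v ++ v1, v2, w ++ w', by simp, by simp, h.append h1⟩

theorem VHalt.append {P v : List Bool} (h : VHalt P v) (P' v' : List Bool) : VHalt (P ++ P') (v ++ v') := by
  obtain ⟨P1, P2, v1, v2, w', rfl, rfl, h1⟩ := h
  exact ⟨P1, P2 ++ P', v1, v2 ++ v', w', by simp, by simp, h1⟩

/-- the word `P` begins with at least `b` letters E -/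
def BegE (b : ℕ) (P : List Bool) : Prop := ∃ Q, P = rE b ++ Q

theorem BegE.mono {b b' : ℕ} {P : List Bool} (h : BegE b P) (hb : b' ≤ b) : BegE b' P := by
  obtain ⟨Q, rfl⟩ := h
  refine ⟨rE (b - b') ++ Q, ?_⟩
  rw [← List.append_assoc, ← List.replicate_add, Nat.add_sub_cancel' hb]

theorem BegE.append {b : ℕ} {P : List Bool} (h : BegE b P) (P' : List Bool) : BegE b (P ++ P') := by
  obtain ⟨Q, rfl⟩ := h
  exact ⟨Q ++ P', by simp⟩

theorem begE_rE {b n : ℕ} (h : b ≤ n) : BegE b (rE n) :=
  ⟨rE (n - b), by rw [← List.replicate_add, Nat.add_sub_cancel' h]⟩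

theorem BegE.drop {b : ℕ} {P : List Bool} (h : BegE b P) : rE b ++ P.drop b = P := by
  obtain ⟨Q, rfl⟩ := h
  congr 1
  rw [List.drop_append, List.drop_eq_nil_of_le (by simp)]
  simp

theorem BegE.le {b : ℕ} {P : List Bool} (h : BegE b P) : b ≤ P.length := by
  obtain ⟨Q, rfl⟩ := h
  simp

/-- composition of zones -/
theorem Zn.comp {P P' v w v' w' : List Bool} {a b c : ℕ} (h : Zn P a b v w) (ha : a ≤ P.length) (hb : BegE b P')
    (h' : Zn P' b c v' w') : Zn (P ++ P') a c (v ++ v') (w ++ w') := by
  have h1 := VRun.append h h'
  have h2 : P.drop a ++ rE b ++ (P'.drop b ++ rE c) = (P ++ P').drop a ++ rE c := by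
    rw [List.append_assoc, ← List.append_assoc (rE b), hb.drop, List.drop_append, Nat.sub_eq_zero_of_le ha]
    simp
  rw [h2] at h1
  exact h1

/-- a zone followed by a zone in which the system halts -/
theorem Zn.halt {P P' v w v' : List Bool} {a b : ℕ} (h : Zn P a b v w) (ha : a ≤ P.length) (hb : BegE b P')
    (h' : VHalt (P'.drop b) v') : VHalt ((P ++ P').drop a) (v ++ v') := by
  have h1 := VHalt.of_run h h'
  have h2 : P.drop a ++ rE b ++ P'.drop b = (P ++ P').drop a := by
    rw [List.append_assoc, hb.drop, List.drop_append, Nat.sub_eq_zero_of_le ha]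
    simp
  rw [h2] at h1
  exact h1

/-- a zone without data ones -/
theorem Zn.zero {P : List Bool} {a : ℕ} (ha : a ≤ P.length) :
    Zn P a a (r0 P.length) ((P.drop a ++ rE a).map not) := by
  have h := VRun.zero (P.drop a ++ rE a)
  have h2 : (P.drop a ++ rE a).length = P.length := by
    simp only [List.length_append, List.length_drop, List.length_replicate]
    omega
  rw [h2] at h
  exact h

/-- a quiet zone -/
theorem Zn.quiet {m n a b : ℕ} (ha : a ≤ m) (h : m + b = n + a) : Zn (rE m) a b (r0 n) (r0 n) := by
  have h1 := VRun.zero (rE n)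
  have h2 : (rE m).drop a ++ rE b = rE n := by
    rw [List.drop_replicate, ← List.replicate_add]
    congr 1
    omega
  unfold Zn
  rw [h2]
  simpa using h1

/-- a neutral zone -/
theorem Zn.neutral {v : List Bool} {n g a : ℕ} (hn : v.length = n) (hg : v.count true = g) (ha : a ≤ n) :
    Zn (rE (n + g)) a a v (r0 n) := by
  have h1 := VRun.erun v
  rw [hn, hg] at h1
  have h2 : (rE (n + g)).drop a ++ rE a = rE (n + g) := by
    rw [List.drop_replicate, ← List.replicate_add]
    congr 1
    omega
  unfold Zn
  rw [h2]
  exact h1

theorem dbl_append (v w : List Bool) : dbl (v ++ w) = dbl v ++ dbl w := by simp [dbl]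

theorem dbl_length (w : List Bool) : (dbl w).length = 2 * w.length := by
  induction w with
  | nil => rfl
  | cons c w ih =>
    have : dbl (c :: w) = c :: false :: dbl w := rfl
    rw [this]
    simp only [List.length_cons, ih]
    omega

theorem dbl_r0 (n : ℕ) : dbl (r0 n) = r0 (2 * n) := by
  induction n with
  | zero => rfl
  | succ n ih =>
    have h1 : dbl (r0 (n + 1)) = false :: false :: dbl (r0 n) := rfl
    have h2 : r0 (2 * (n + 1)) = false :: false :: r0 (2 * n) := rfl
    rw [h1, h2, ih]

theorem dbl_count (w : List Bool) : (dbl w).count true = w.count true := by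
  induction w with
  | nil => rfl
  | cons c w ih =>
    have : dbl (c :: w) = c :: false :: dbl w := rfl
    rw [this]
    cases c <;> simp [ih]

end P913
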