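import Pool.Agent.Lib.P913V.VArr

/-!
# The gate zone
-/

set_option autoImplicit false

namespace P913

/-- a zone without data ones -/
theorem zero_zone {P : List Bool} {a : ℕ} (h : BegE a P) :
    ∃ w, Zn P a a (r0 P.length) w ∧ w.length = P.length ∧ w.count true = P.count false := by
  refine ⟨_, Zn.zero h.le, ?_, ?_⟩
  · have := h.le
    simp only [List.length_map, List.length_append, List.length_drop, List.length_replicate]
    omega
  · rw [count_map_not, List.count_append, count_rE]
    conv_rhs => rw [← h.drop, List.count_append, count_rE]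
    omega

namespace VPar

variable (q : VPar)

theorem dummy_length (n len : ℕ) (h : 2 * q.r + 2 * n ≤ len) : (q.dummy n len).length = len := by
  have h1 : ∀ n : ℕ, (List.replicate n [false, true]).flatten.length = 2 * n := by
    intro n
    induction n with
    | zero => rfl
    | succ n ih =>
      rw [List.replicate_succ, List.flatten_cons, List.length_append, ih]
      simp only [List.length_cons, List.length_nil]
      omega
  simp only [dummy, List.length_append, List.length_replicate, h1]
  omega

theorem dummy_count (n len : ℕ) : (q.dummy n len).count false = n := by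
  have h1 : ∀ n : ℕ, (List.replicate n [false, true]).flatten.count false = n := by
    intro n
    induction n with
    | zero => rfl
    | succ n ih =>
      rw [List.replicate_succ, List.flatten_cons, List.count_append, ih]
      simp
      omega
  simp only [dummy, List.count_append, h1, count_rE]
  omega

theorem dummy_begE (n len a : ℕ) (ha : a ≤ 2 * q.r) : BegE a (q.dummy n len) := by
  unfold dummy
  exact ((begE_rE ha).append _).append _

private theorem hit_iff (ok : q.Ok) (i : Bool) (a b x j : ℕ) (hg : q.g i (2 * (b : ℤ) - a) = some (2 * (b : ℤ) - x)) :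
    q.hit i j (2 * (b : ℤ) - (min (x + q.C) (a + j) : ℕ)) = decide (a + j < x + q.C) := by
  by_cases h : a + j < x + q.C
  · rw [decide_eq_true h, min_eq_right h.le]
    unfold hit
    have e : (2 * (b : ℤ) - ((a + j : ℕ) : ℤ)) + (j : ℤ) = 2 * (b : ℤ) - a := by push_cast; ring
    rw [e, hg]
    simp only [decide_eq_true_eq]
    push_cast
    omega
  · rw [decide_eq_false h]
    push Not at h
    rw [min_eq_left h]
    unfold hit
    rcases hw : q.g i (2 * (b : ℤ) - ((x + q.C : ℕ) : ℤ) + j) with _ | w
    · rfl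
    · simp only [decide_eq_false_iff_not, not_lt]
      have h1 := ok.mono i (2 * (b : ℤ) - a) (2 * (b : ℤ) - ((x + q.C : ℕ) : ℤ) + j) _ _ (by push_cast; omega) hg hw
      push_cast
      omega

private theorem gate_arms (ok : q.Ok) (i : Bool) (a b x : ℕ) (ha : a ≤ q.R) (hb : b ≤ q.R) (hx : x ≤ q.R)
    (hg : q.g i (2 * (b : ℤ) - a) = some (2 * (b : ℤ) - x)) (j : ℕ) :
    ∃ w, Zn (rE (10 * q.r - 2 * q.C) ++ q.arms i j) (2 * (q.R - a)) (2 * (q.R + q.C - min (x + q.C) (a + j)))
      (r0 (10 * q.r) ++ (List.replicate j (q.arrD b)).flatten) w ∧ w.length = 10 * q.r + 16 * q.r * j ∧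
      w.count true = (q.arms i j).count false := by
  have hd := ok.disp i _ _ hg
  have hd2 : a ≤ x + q.C ∧ x ≤ a + q.C := by
    rw [abs_le] at hd
    constructor <;> omega
  have hr : q.r = q.R + q.C + 1 := rfl
  induction j with
  | zero =>
    have e1 : min (x + q.C) (a + 0) = a := by omega
    refine ⟨r0 (10 * q.r), ?_, by simp, ?_⟩
    · rw [e1]
      have e2 : q.arms i 0 = [] := rfl
      rw [e2, List.append_nil]
      simp only [List.replicate_zero, List.flatten_nil, List.append_nil]
      exact Zn.quiet (by omega) (by omega)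
    · have e2 : q.arms i 0 = [] := rfl
      rw [e2, List.count_replicate]
      rfl
  | succ j ih =>
    obtain ⟨w, h1, h2, h3⟩ := ih
    have hh := q.hit_iff ok i a b x j hg
    have hbeg : BegE (2 * (q.R + q.C - min (x + q.C) (a + j))) (q.armP i j) := q.armP_begE i j _ (by omega)
    have hlen : 2 * (q.R - a) ≤ (rE (10 * q.r - 2 * q.C) ++ q.arms i j).length := by
      rw [List.length_append, List.length_replicate]
      omega
    have e1 : rE (10 * q.r - 2 * q.C) ++ q.arms i (j + 1) = (rE (10 * q.r - 2 * q.C) ++ q.arms i j) ++ q.armP i j := by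
      rw [arms_succ, List.append_assoc]
    have e2 : r0 (10 * q.r) ++ (List.replicate (j + 1) (q.arrD b)).flatten =
        (r0 (10 * q.r) ++ (List.replicate j (q.arrD b)).flatten) ++ q.arrD b := by
      rw [List.replicate_succ', List.flatten_append]
      simp
    rw [e1, e2, arms_succ, List.count_append]
    by_cases h : a + j < x + q.C
    · rw [decide_eq_true h] at hh
      obtain ⟨w', h4, h5, h6⟩ := q.arr_hit i j b (min (x + q.C) (a + j)) hb (by omega) hh
      have e3 : min (x + q.C) (a + (j + 1)) = min (x + q.C) (a + j) + 1 := by omega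
      rw [e3]
      refine ⟨w ++ w', h1.comp hlen hbeg h4, ?_, ?_⟩
      · rw [List.length_append, h2, h5]; ring
      · rw [List.count_append, h3, h6]
    · rw [decide_eq_false h] at hh
      obtain ⟨w', h4, h5, h6⟩ := q.arr_pass i j b (min (x + q.C) (a + j)) hb (by omega) hh (by
        intro hj
        subst hj
        have e3 : min (x + q.C) (a + 0) = a := by omega
        rw [e3, hg]
        rfl)
      have e3 : min (x + q.C) (a + (j + 1)) = min (x + q.C) (a + j) := by omega
      rw [e3]
      refine ⟨w ++ w', h1.comp hlen hbeg h4, ?_, ?_⟩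
      · rw [List.length_append, h2, h5]; ring
      · rw [List.count_append, h3, h6]

theorem N_le (i : Bool) : q.N i ≤ q.GAM := by
  unfold GAM
  cases i <;> omega

theorem H0_bound {h : ℕ} (hh : q.H0 ≤ h) :
    10 * q.r + 16 * q.r * q.K + (2 * q.r + 2 * q.GAM) + 2 * q.r ≤ 2 * h ∧ 8 * q.r * (q.K + 1) ≤ h ∧
      2 * q.r + 2 * q.GAM ≤ h := by
  unfold H0 at hh
  have e1 : 20 * q.r * (q.K + 1) = 20 * (q.r * q.K) + 20 * q.r := by ring
  have e2 : 16 * q.r * q.K = 16 * (q.r * q.K) := by ring
  have e3 : 8 * q.r * (q.K + 1) = 8 * (q.r * q.K) + 8 * q.r := by ring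
  rw [e1] at hh
  rw [e2, e3]
  refine ⟨?_, ?_, ?_⟩ <;> omega

/-- the gate zone -/
theorem gate_run (ok : q.Ok) (i : Bool) {h : ℕ} (hh : q.H0 ≤ h) (a b x : ℕ) (ha : a ≤ q.R) (hb : b ≤ q.R)
    (hx : x ≤ q.R) (hg : q.g i (2 * (b : ℤ) - a) = some (2 * (b : ℤ) - x)) :
    ∃ Om, q.IsOm h Om ∧ Zn (q.gzone i h) (2 * (q.R - a)) (2 * (q.R - x)) (q.gdat h b) Om := by
  obtain ⟨w, h1, h2, h3⟩ := q.gate_arms ok i a b x ha hb hx hg q.K
  have hd := ok.disp i _ _ hg
  have hK : q.K = 2 * q.C := rfl
  have e1 : min (x + q.C) (a + q.K) = x + q.C := by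
    rw [abs_le] at hd
    omega
  have e2 : q.R + q.C - (x + q.C) = q.R - x := by omega
  rw [e1, e2] at h1
  obtain ⟨b1, b2, b3⟩ := q.H0_bound hh
  have hN := q.N_le i
  have hr : q.r = q.R + q.C + 1 := rfl
  have hlen := q.dummy_length (q.GAM - q.N i) (2 * h - 10 * q.r - 16 * q.r * q.K) (by omega)
  obtain ⟨w', h4, h5, h6⟩ := zero_zone (q.dummy_begE (q.GAM - q.N i) (2 * h - 10 * q.r - 16 * q.r * q.K)
    (2 * (q.R - x)) (by omega))
  rw [hlen] at h4 h5
  rw [dummy_count] at h6
  refine ⟨w ++ w', ⟨?_, ?_⟩, ?_⟩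
  · rw [List.length_append, h2, h5]
    omega
  · rw [List.count_append, h3, h6]
    show q.N i + (q.GAM - q.N i) = q.GAM
    omega
  · have h7 := h1.comp (by rw [List.length_append, List.length_replicate]; omega)
      (q.dummy_begE (q.GAM - q.N i) (2 * h - 10 * q.r - 16 * q.r * q.K) (2 * (q.R - x)) (by omega)) h4
    have e3 : q.gdat h b = r0 (10 * q.r) ++ (List.replicate q.K (q.arrD b)).flatten ++
        r0 (2 * h - 10 * q.r - 16 * q.r * q.K) := by
      unfold gdat
      rw [List.append_assoc]
    rw [e3]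
    exact h7

/-- the gate zone halts -/
theorem gate_halt (ok : q.Ok) (i : Bool) (h : ℕ) (a b : ℕ) (ha : a ≤ q.R) (hb : b ≤ q.R)
    (hg : q.g i (2 * (b : ℤ) - a) = none) :
    VHalt ((q.gzone i h).drop (2 * (q.R - a))) (q.gdat h b) := by
  have hr : q.r = q.R + q.C + 1 := rfl
  have hC := ok.C_pos
  obtain ⟨k, hk⟩ : ∃ k, q.K = k + 1 := ⟨q.K - 1, by unfold K; omega⟩
  have h1 : Zn (rE (10 * q.r - 2 * q.C)) (2 * (q.R - a)) (2 * (q.R + q.C - a)) (r0 (10 * q.r)) (r0 (10 * q.r)) :=
    Zn.quiet (by omega) (by omega)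
  have h2 := q.arr_halt i b a hb (by omega) hg
  have h3 := h1.halt (by rw [List.length_replicate]; omega) (q.armP_begE i 0 _ (by omega)) h2
  have e1 : q.arms i q.K = q.armP i 0 ++ ((List.range k).map Nat.succ).flatMap (q.armP i) := by
    unfold arms
    rw [hk, List.range_succ_eq_map, List.flatMap_cons]
  have e2 : (q.gzone i h).drop (2 * (q.R - a)) = (rE (10 * q.r - 2 * q.C) ++ q.armP i 0).drop (2 * (q.R - a)) ++
      (((List.range k).map Nat.succ).flatMap (q.armP i) ++
        q.dummy (q.GAM - q.N i) (2 * h - 10 * q.r - 16 * q.r * q.K)) := by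
    rw [← List.drop_append_of_le_length (by
      rw [List.length_append, List.length_replicate]; omega)]
    unfold gzone
    rw [e1]
    simp only [List.append_assoc]
  have e3 : q.gdat h b = (r0 (10 * q.r) ++ q.arrD b) ++ ((List.replicate k (q.arrD b)).flatten ++
      r0 (2 * h - 10 * q.r - 16 * q.r * q.K)) := by
    unfold gdat
    rw [hk, List.replicate_succ, List.flatten_cons]
    simp only [List.append_assoc]
  rw [e2, e3]
  exact h3.append _ _

end VPar

end P913
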