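import Pool.Agent.Lib.P913V.VGate

/-!
# Laps
-/

set_option autoImplicit false

namespace P913

private theorem quiet_same {m a : ℕ} (ha : a ≤ m) : Zn (rE m) a a (r0 m) (r0 m) := Zn.quiet ha rfl

theorem r0_add (m n : ℕ) : r0 (m + n) = r0 m ++ r0 n := List.replicate_add m n false

theorem rE_add (m n : ℕ) : rE (m + n) = rE m ++ rE n := List.replicate_add m n true

private theorem map_rE (n : ℕ) : (rE n).map not = r0 n := by simp

private theorem map_r0_flat (K m : ℕ) :
    ((List.replicate K (false :: rE m)).flatten).map not = (List.replicate K (true :: r0 m)).flatten := by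
  induction K with
  | zero => rfl
  | succ K ih =>
    rw [List.replicate_succ, List.replicate_succ, List.flatten_cons, List.flatten_cons, List.map_append, ih,
      List.map_cons, map_rE]
    rfl

private theorem dbl_flat (K m : ℕ) :
    dbl ((List.replicate K (true :: r0 m)).flatten) = (List.replicate K (true :: r0 (2 * m + 1))).flatten := by
  induction K with
  | zero => rfl
  | succ K ih =>
    rw [List.replicate_succ, List.replicate_succ, List.flatten_cons, List.flatten_cons, dbl_append, ih]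
    have h1 : dbl (true :: r0 m) = true :: false :: dbl (r0 m) := rfl
    rw [h1, dbl_r0]
    rfl

private theorem shift_flat (K n t s : ℕ) (ht : t ≤ n) :
    (List.replicate K (r0 t ++ true :: r0 (n - t))).flatten ++ r0 (t + s) =
      r0 t ++ ((List.replicate K (true :: r0 n)).flatten ++ r0 s) := by
  induction K with
  | zero =>
    simp only [List.replicate_zero, List.flatten_nil, List.nil_append]
    rw [r0_add]
  | succ K ih =>
    rw [List.replicate_succ, List.replicate_succ, List.flatten_cons, List.flatten_cons, List.append_assoc, ih]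
    have h1 : true :: r0 n = (true :: r0 (n - t)) ++ r0 t := by
      rw [List.cons_append, ← List.replicate_add]
      congr 2
      omega
    rw [h1]
    simp only [List.append_assoc, List.cons_append]

namespace VPar

variable (q : VPar)

theorem dbl_em {h b : ℕ} (hh : q.H0 ≤ h) (hb : b ≤ q.R) : dbl (q.em h b) = q.gdat h b := by
  obtain ⟨b1, b2, b3⟩ := q.H0_bound hh
  have hr : q.r = q.R + q.C + 1 := rfl
  have e8 : 8 * q.r * (q.K + 1) = 8 * (q.r * q.K) + 8 * q.r := by ring
  have e16 : 16 * q.r * q.K = 16 * (q.r * q.K) := by ring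
  unfold em gdat
  rw [dbl_append, dbl_append, dbl_r0, dbl_r0, dbl_flat]
  have e1 : 2 * (8 * q.r - 1) + 1 = 16 * q.r - 1 := by omega
  have e2 : 2 * (8 * q.r - 2 * (q.R - b)) = 10 * q.r + (2 * q.R + 6 * q.C + 6 + 4 * b) := by omega
  have e3 : 2 * h - 10 * q.r - 16 * q.r * q.K =
      (2 * q.R + 6 * q.C + 6 + 4 * b) + 2 * (h - 8 * q.r * (q.K + 1) + 2 * (q.R - b)) := by
    rw [e8] at b2 ⊢
    rw [e16] at b1 ⊢
    omega
  have e4 := shift_flat q.K (16 * q.r - 1) (2 * q.R + 6 * q.C + 6 + 4 * b)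
    (2 * (h - 8 * q.r * (q.K + 1) + 2 * (q.R - b))) (by omega)
  rw [e1, e2, e3]
  unfold arrD
  rw [e4, r0_add]
  simp only [List.append_assoc]

theorem dbl_OUT {h b : ℕ} (Om : List Bool) (hh : q.H0 ≤ h) (hb : b ≤ q.R) :
    dbl (q.OUT h b Om) = q.datE h b ++ datO h Om := by
  unfold OUT datE datO
  rw [dbl_append, dbl_append, dbl_append, dbl_append, dbl_r0, dbl_r0, dbl_r0, q.dbl_em hh hb]
  have e1 : 2 * (12 * h) = 24 * h := by ring
  have e2 : 2 * (11 * h) = 6 * h + 16 * h := by ring
  have e3 : 2 * (6 * h) = 12 * h := by ring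
  rw [e1, e2, e3, r0_add]
  simp only [List.append_assoc]

theorem ttext_length {h : ℕ} (hh : q.H0 ≤ h) : (q.ttext h).length = h := by
  obtain ⟨b1, b2, b3⟩ := q.H0_bound hh
  have h1 : ∀ K : ℕ, (List.replicate K (false :: rE (8 * q.r - 1))).flatten.length = 8 * (q.r * K) := by
    intro K
    induction K with
    | zero => simp
    | succ K ih =>
      have hr : q.r = q.R + q.C + 1 := rfl
      rw [List.replicate_succ, List.flatten_cons, List.length_append, ih, List.length_cons, List.length_replicate]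
      have : q.r * (K + 1) = q.r * K + q.r := by ring
      rw [this]
      omega
  have e8 : 8 * q.r * (q.K + 1) = 8 * (q.r * q.K) + 8 * q.r := by ring
  simp only [ttext, List.length_append, List.length_replicate, h1]
  rw [e8] at b2 ⊢
  omega

theorem ttext_begE {h a : ℕ} (ha : a ≤ 8 * q.r) : BegE a (q.ttext h) := by
  unfold ttext
  exact ((begE_rE ha).append _).append _

/-- the transmitter zone -/
theorem trans_run {h x : ℕ} (hh : q.H0 ≤ h) :
    Zn (q.ttext h) (2 * (q.R - x)) (2 * (q.R - x)) (r0 h) (q.em h x) := by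
  obtain ⟨b1, b2, b3⟩ := q.H0_bound hh
  have hr : q.r = q.R + q.C + 1 := rfl
  have h1 : BegE (2 * (q.R - x)) (q.ttext h) := q.ttext_begE (by omega)
  have h2 := Zn.zero h1.le
  rw [q.ttext_length hh] at h2
  have h3 : ((q.ttext h).drop (2 * (q.R - x)) ++ rE (2 * (q.R - x))).map not = q.em h x := by
    unfold ttext em
    rw [List.append_assoc, List.drop_append_of_le_length (by rw [List.length_replicate]; omega), List.drop_replicate]
    simp only [List.map_append, map_rE, map_r0_flat, List.append_assoc]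
    rw [r0_add]
  rw [h3] at h2
  exact h2

theorem gzone_begE (i : Bool) {h a : ℕ} (ha : a ≤ 10 * q.r - 2 * q.C) : BegE a (q.gzone i h) := by
  unfold gzone
  exact ((begE_rE ha).append _).append _

theorem gzone_length (i : Bool) {h : ℕ} (hh : q.H0 ≤ h) : (q.gzone i h).length = 2 * h := by
  obtain ⟨b1, b2, b3⟩ := q.H0_bound hh
  have hN := q.N_le i
  have hr : q.r = q.R + q.C + 1 := rfl
  have hK : q.K = 2 * q.C := rfl
  have hlen := q.dummy_length (q.GAM - q.N i) (2 * h - 10 * q.r - 16 * q.r * q.K) (by omega)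
  unfold gzone
  rw [List.length_append, List.length_append, List.length_replicate, arms_length, hlen]
  have e1 : (16 * q.r + 1) * q.K = 16 * q.r * q.K + q.K := by ring
  rw [e1]
  omega

/-- an even lap -/
theorem even_run (ok : q.Ok) (i : Bool) {h : ℕ} (hh : q.H0 ≤ h) (a b x : ℕ) (ha : a ≤ q.R) (hb : b ≤ q.R)
    (hx : x ≤ q.R) (hg : q.g i (2 * (b : ℤ) - a) = some (2 * (b : ℤ) - x)) :
    ∃ Om, q.IsOm h Om ∧ Zn (q.evenT i h) (2 * (q.R - a)) (2 * (q.R - x)) (q.datE h b) (q.OUT h a Om) := by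
  obtain ⟨b1, b2, b3⟩ := q.H0_bound hh
  obtain ⟨Om, h1, h2⟩ := q.gate_run ok i hh a b x ha hb hx hg
  have hr : q.r = q.R + q.C + 1 := rfl
  refine ⟨Om, h1, ?_⟩
  have z5 : Zn (rE (6 * h)) (2 * (q.R - x)) (2 * (q.R - x)) (r0 (6 * h)) (r0 (6 * h)) := quiet_same (by omega)
  have z4 := h2.comp (by rw [q.gzone_length i hh]; omega) (begE_rE (by omega)) z5
  have z3 := (quiet_same (m := 11 * h) (a := 2 * (q.R - a)) (by omega)).comp (by rw [List.length_replicate]; omega)
    ((q.gzone_begE i (by omega)).append _) z4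
  have z2 := (q.trans_run (x := a) hh).comp (by rw [q.ttext_length hh]; omega) ((begE_rE (by omega)).append _) z3
  have z1 := (quiet_same (m := 12 * h) (a := 2 * (q.R - a)) (by omega)).comp (by rw [List.length_replicate]; omega)
    ((q.ttext_begE (by omega)).append _) z2
  have e : q.datE h b = r0 (12 * h) ++ (r0 h ++ (r0 (11 * h) ++ (q.gdat h b ++ r0 (6 * h)))) := by
    unfold datE
    have : 24 * h = 12 * h + (h + 11 * h) := by ring
    rw [this, r0_add, r0_add]
    simp only [List.append_assoc]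
  rw [e]
  exact z1

/-- an even lap halts -/
theorem even_halt (ok : q.Ok) (i : Bool) {h : ℕ} (hh : q.H0 ≤ h) (a b : ℕ) (ha : a ≤ q.R) (hb : b ≤ q.R)
    (hg : q.g i (2 * (b : ℤ) - a) = none) :
    VHalt ((q.evenT i h).drop (2 * (q.R - a))) (q.datE h b) := by
  obtain ⟨b1, b2, b3⟩ := q.H0_bound hh
  have hr : q.r = q.R + q.C + 1 := rfl
  have z3 := (quiet_same (m := 11 * h) (a := 2 * (q.R - a)) (by omega)).halt (by rw [List.length_replicate]; omega)
    (q.gzone_begE i (h := h) (by omega)) (q.gate_halt ok i h a b ha hb hg)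
  have z2 := (q.trans_run (x := a) hh).halt (by rw [q.ttext_length hh]; omega) ((begE_rE (by omega)).append _) z3
  have z1 := (quiet_same (m := 12 * h) (a := 2 * (q.R - a)) (by omega)).halt (by rw [List.length_replicate]; omega)
    ((q.ttext_begE (by omega)).append _) z2
  have e : q.datE h b = (r0 (12 * h) ++ (r0 h ++ (r0 (11 * h) ++ q.gdat h b))) ++ r0 (6 * h) := by
    unfold datE
    have : 24 * h = 12 * h + (h + 11 * h) := by ring
    rw [this, r0_add, r0_add]
    simp only [List.append_assoc]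
  have e' : (q.evenT i h).drop (2 * (q.R - a)) =
      (rE (12 * h) ++ (q.ttext h ++ (rE (11 * h) ++ q.gzone i h))).drop (2 * (q.R - a)) ++ rE (6 * h) := by
    rw [← List.drop_append_of_le_length (by rw [List.length_append, List.length_replicate]; omega)]
    unfold evenT
    simp only [List.append_assoc]
  rw [e, e']
  exact z1.append _ _

/-- an odd lap -/
theorem odd_run {h : ℕ} (hh : q.H0 ≤ h) (x : ℕ) (Om : List Bool) (hOm : q.IsOm h Om) :
    ∃ Om', q.IsOm h Om' ∧ Zn (q.oddT h) (2 * (q.R - x)) (2 * (q.R - x)) (datO h Om) (q.OUT h x Om') := by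
  obtain ⟨b1, b2, b3⟩ := q.H0_bound hh
  have hr : q.r = q.R + q.C + 1 := rfl
  have hlen := q.dummy_length q.GAM (2 * h) (by omega)
  obtain ⟨w', h4, h5, h6⟩ := zero_zone (q.dummy_begE q.GAM (2 * h) (2 * (q.R - x)) (by omega))
  rw [hlen] at h4 h5
  rw [dummy_count] at h6
  refine ⟨w', ⟨h5, h6⟩, ?_⟩
  have z7 : Zn (rE (6 * h)) (2 * (q.R - x)) (2 * (q.R - x)) (r0 (6 * h)) (r0 (6 * h)) := quiet_same (by omega)
  have z6 := h4.comp (by rw [hlen]; omega) (begE_rE (by omega)) z7
  have z5 := (quiet_same (m := 4 * h) (a := 2 * (q.R - x)) (by omega)).comp (by rw [List.length_replicate]; omega)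
    ((q.dummy_begE q.GAM (2 * h) (2 * (q.R - x)) (by omega)).append _) z6
  have z4 := (Zn.neutral (v := dbl Om) (n := 4 * h) (g := q.GAM) (a := 2 * (q.R - x))
    (by rw [dbl_length, hOm.1]; ring) (by rw [dbl_count, hOm.2]) (by omega)).comp
      (by rw [List.length_replicate]; omega) ((begE_rE (by omega)).append _) z5
  have z3 := (quiet_same (m := 3 * h) (a := 2 * (q.R - x)) (by omega)).comp (by rw [List.length_replicate]; omega)
    ((begE_rE (by omega)).append _) z4
  have z2 := (q.trans_run (x := x) hh).comp (by rw [q.ttext_length hh]; omega) ((begE_rE (by omega)).append _) z3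
  have z1 := (quiet_same (m := 12 * h) (a := 2 * (q.R - x)) (by omega)).comp (by rw [List.length_replicate]; omega)
    ((q.ttext_begE (by omega)).append _) z2
  have e : datO h Om = r0 (12 * h) ++ (r0 h ++ (r0 (3 * h) ++ (dbl Om ++ (r0 (4 * h) ++ (r0 (2 * h) ++
      r0 (6 * h)))))) := by
    unfold datO
    have e1 : 16 * h = 12 * h + (h + 3 * h) := by ring
    have e2 : 12 * h = 4 * h + (2 * h + 6 * h) := by ring
    rw [e1]
    rw [r0_add, r0_add]
    have e3 : r0 (12 * h) = r0 (4 * h) ++ (r0 (2 * h) ++ r0 (6 * h)) := by rw [← r0_add, ← r0_add, ← e2]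
    conv_lhs => arg 2; arg 2; rw [e3]
    simp only [List.append_assoc]
  have e' : q.OUT h x w' = r0 (12 * h) ++ (q.em h x ++ (r0 (3 * h) ++ (r0 (4 * h) ++ (r0 (4 * h) ++ (w' ++
      r0 (6 * h)))))) := by
    unfold OUT
    have e1 : 11 * h = 3 * h + (4 * h + 4 * h) := by ring
    rw [e1, r0_add, r0_add]
    simp only [List.append_assoc]
  rw [e, e']
  exact z1

/-- two laps -/
theorem super_run (ok : q.Ok) (i : Bool) {h : ℕ} (hh : q.H0 ≤ h) (a b x : ℕ) (ha : a ≤ q.R) (hb : b ≤ q.R)
    (hx : x ≤ q.R) (hg : q.g i (2 * (b : ℤ) - a) = some (2 * (b : ℤ) - x)) (Om0 : List Bool) (hOm : q.IsOm h Om0) :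
    ∃ Om Om', q.IsOm h Om ∧ q.IsOm h Om' ∧
      Zn (q.SL i h) (2 * (q.R - a)) (2 * (q.R - x)) (dbl (q.OUT h b Om0)) (q.OUT h a Om ++ q.OUT h x Om') := by
  obtain ⟨b1, b2, b3⟩ := q.H0_bound hh
  have hr : q.r = q.R + q.C + 1 := rfl
  obtain ⟨Om, h1, h2⟩ := q.even_run ok i hh a b x ha hb hx hg
  obtain ⟨Om', h3, h4⟩ := q.odd_run hh x Om0 hOm
  refine ⟨Om, Om', h1, h3, ?_⟩
  rw [q.dbl_OUT Om0 hh hb]
  refine h2.comp ?_ ?_ h4
  · unfold evenT
    rw [List.length_append, List.length_replicate]
    omega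
  · unfold oddT
    exact (begE_rE (by omega)).append _

/-- two laps halt -/
theorem super_halt (ok : q.Ok) (i : Bool) {h : ℕ} (hh : q.H0 ≤ h) (a b : ℕ) (ha : a ≤ q.R) (hb : b ≤ q.R)
    (hg : q.g i (2 * (b : ℤ) - a) = none) (Om0 : List Bool) :
    VHalt ((q.SL i h).drop (2 * (q.R - a))) (dbl (q.OUT h b Om0)) := by
  obtain ⟨b1, b2, b3⟩ := q.H0_bound hh
  have hr : q.r = q.R + q.C + 1 := rfl
  rw [q.dbl_OUT Om0 hh hb]
  unfold SL
  rw [List.drop_append_of_le_length (by
    unfold evenT
    rw [List.length_append, List.length_replicate]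
    omega)]
  exact (q.even_halt ok i hh a b ha hb hg).append _ _

theorem SL_begE (i : Bool) {h a : ℕ} (ha : a ≤ 12 * h) : BegE a (q.SL i h) := by
  unfold SL evenT
  exact ((begE_rE ha).append _).append _

end VPar

end P913
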