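import Pool.Agent.Lib.P913V.VSys

/-!
# Programs for the recursion (M): parameters, program texts, data words

Recursion (M): `x = 2 b - g (2 b - a)`.  A value `x ≤ R` is a lateness; the phase (program position minus time) at the
beginning of a lap is `2 (R - x)`.
-/

set_option autoImplicit false

namespace P913

/-- the parameters: values are at most `R`, the maps `g i` are weakly increasing with displacement at most `C` -/
structure VPar where
  R : ℕ
  C : ℕ
  g : Bool → ℤ → Option ℤ

/-- the conditions for the parameters -/
structure VPar.Ok (q : VPar) : Prop where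
  C_pos : 1 ≤ q.C
  mono : ∀ i u v x y, u ≤ v → q.g i u = some x → q.g i v = some y → x ≤ y
  disp : ∀ i u x, q.g i u = some x → |x - u| ≤ (q.C : ℤ)

namespace VPar

variable (q : VPar)

/-- the unit of time of the gates -/
def r : ℕ := q.R + q.C + 1

/-- the number of particles emitted in a lap, and the number of arrivals in a gate -/
def K : ℕ := 2 * q.C

/-- the arrival `k` hits a letter Z if the lateness `y` satisfies `2 b - y = v` -/
def hit (i : Bool) (k : ℕ) (v : ℤ) : Bool :=
  match q.g i (v + k) with
  | some w => decide (w - q.C < v)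
  | none => false

/-- the two program letters for the value `v = j - (R + C)` in the arrival `k` -/
def cell (i : Bool) (k : ℕ) (j : ℕ) : List Bool :=
  [!(q.hit i k ((j : ℤ) - (q.R + q.C))), !(decide (k = 0) && (q.g i ((j : ℤ) - (q.R + q.C))).isNone)]

/-- the program text of the arrival `k`, length `16 r + 1` -/
def armP (i : Bool) (k : ℕ) : List Bool :=
  rE (2 * q.R + 6 * q.C + 6) ++ ((List.range (3 * q.R + q.C + 1)).flatMap (q.cell i k)) ++ rE (8 * q.r + 1)

/-- the data word of an arrival which belongs to the value `b`, length `16 r` -/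
def arrD (b : ℕ) : List Bool :=
  r0 (2 * q.R + 6 * q.C + 6 + 4 * b) ++ true :: r0 (16 * q.r - 1 - (2 * q.R + 6 * q.C + 6 + 4 * b))

/-- the program text of `j` arrivals -/
def arms (i : Bool) (j : ℕ) : List Bool := (List.range j).flatMap (q.armP i)

/-- the number of letters Z of a gate -/
def N (i : Bool) : ℕ := (q.arms i q.K).count false

/-- the number of ones in the output of a gate zone -/
def GAM : ℕ := q.N false + q.N true

/-- the smallest allowed parameter `h` -/
def H0 : ℕ := 20 * q.r * (q.K + 1) + 2 * q.GAM

/-- the text of a transmitter zone, length `h` -/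
def ttext (h : ℕ) : List Bool :=
  rE (8 * q.r) ++ (List.replicate q.K (false :: rE (8 * q.r - 1))).flatten ++ rE (h - 8 * q.r * (q.K + 1))

/-- `n` letters Z without arrivals, length `len` -/
def dummy (n len : ℕ) : List Bool :=
  rE (2 * q.r) ++ (List.replicate n [false, true]).flatten ++ rE (len - 2 * q.r - 2 * n)

/-- the text of the gate zone of an even lap, length `2 h` -/
def gzone (i : Bool) (h : ℕ) : List Bool :=
  rE (10 * q.r - 2 * q.C) ++ q.arms i q.K ++ q.dummy (q.GAM - q.N i) (2 * h - 10 * q.r - 16 * q.r * q.K)

/-- the text of an even lap -/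
def evenT (i : Bool) (h : ℕ) : List Bool :=
  rE (12 * h) ++ (q.ttext h ++ (rE (11 * h) ++ (q.gzone i h ++ rE (6 * h))))

/-- the text of an odd lap -/
def oddT (h : ℕ) : List Bool :=
  rE (12 * h) ++ (q.ttext h ++ (rE (3 * h) ++ (rE (4 * h + q.GAM) ++ (rE (4 * h) ++ (q.dummy q.GAM (2 * h) ++
    rE (6 * h))))))

/-- the text of two laps -/
def SL (i : Bool) (h : ℕ) : List Bool := q.evenT i h ++ q.oddT h

/-- the output of a transmitter zone, length `h` -/
def em (h x : ℕ) : List Bool :=
  r0 (8 * q.r - 2 * (q.R - x)) ++ (List.replicate q.K (true :: r0 (8 * q.r - 1))).flatten ++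
    r0 (h - 8 * q.r * (q.K + 1) + 2 * (q.R - x))

/-- the output of a lap, length `32 h` -/
def OUT (h x : ℕ) (Om : List Bool) : List Bool :=
  r0 (12 * h) ++ (q.em h x ++ (r0 (11 * h) ++ (Om ++ r0 (6 * h))))

/-- a word which can be the output of a gate zone -/
def IsOm (h : ℕ) (Om : List Bool) : Prop := Om.length = 2 * h ∧ Om.count true = q.GAM

/-- the data of a gate zone, length `2 h` -/
def gdat (h b : ℕ) : List Bool :=
  r0 (10 * q.r) ++ ((List.replicate q.K (q.arrD b)).flatten ++ r0 (2 * h - 10 * q.r - 16 * q.r * q.K))

/-- the data of an even lap -/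
def datE (h b : ℕ) : List Bool := r0 (24 * h) ++ (q.gdat h b ++ r0 (6 * h))

/-- the data of an odd lap -/
def datO (h : ℕ) (Om : List Bool) : List Bool := r0 (16 * h) ++ (dbl Om ++ r0 (12 * h))

theorem armP_length (i : Bool) (k : ℕ) : (q.armP i k).length = 16 * q.r + 1 := by
  have h : ∀ l : List ℕ, (l.flatMap (q.cell i k)).length = 2 * l.length := by
    intro l
    induction l with
    | nil => rfl
    | cons a l ih =>
      simp only [List.flatMap_cons, List.length_append, ih, List.length_cons, cell, List.length_nil]
      omega
  simp only [armP, List.length_append, List.length_replicate, h, List.length_range, r]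
  omega

theorem arms_length (i : Bool) (j : ℕ) : (q.arms i j).length = (16 * q.r + 1) * j := by
  induction j with
  | zero => rfl
  | succ j ih =>
    have : q.arms i (j + 1) = q.arms i j ++ q.armP i j := by
      simp [arms, List.range_succ]
    rw [this, List.length_append, ih, armP_length]
    ring

theorem arms_succ (i : Bool) (j : ℕ) : q.arms i (j + 1) = q.arms i j ++ q.armP i j := by
  simp [arms, List.range_succ]

theorem arrD_length {b : ℕ} (hb : b ≤ q.R) : (q.arrD b).length = 16 * q.r := by
  simp only [arrD, List.length_append, List.length_replicate, List.length_cons, r]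
  omega

end VPar

end P913
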