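import Pool.Agent.Lib.P913V.VDef

/-!
# The two-ring system V executes the runs `VRun`
-/

set_option autoImplicit false

namespace P913

/-- the configuration with glyph `A`, slot ring `s` and data word `D` (the data ring without the last `0`) -/
def vcfg (s D : List Bool) : GC YG := ⟨.A, s.headD false, s.tail.map not, D.dropLast⟩

/-- the word ends with a zero -/
def EndF (D : List Bool) : Prop := ∃ D0, D = D0 ++ [false]

theorem EndF.append {D : List Bool} (D1 : List Bool) (h : EndF D) : EndF (D1 ++ D) := by
  obtain ⟨D0, rfl⟩ := h
  exact ⟨D1 ++ D0, by simp⟩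

private theorem popD {x : Bool} {D : List Bool} (w : Bool) (h : EndF (x :: D)) :
    popq ((x :: D).dropLast ++ VT.grow w) = (x, D ++ [w]) := by
  obtain ⟨D0, h0⟩ := h
  rw [h0, List.dropLast_concat]
  have : D0 ++ VT.grow w = (D0 ++ [false]) ++ [w] := by simp [GTab.grow, VT]
  rw [this, ← h0]
  rfl

private theorem popP (s : List Bool) (c : Bool) :
    (xor true (popq (s.map not ++ [!c])).1, (popq (s.map not ++ [!c])).2) =
      ((s ++ [c]).headD false, (s ++ [c]).tail.map not) := by
  cases s with
  | nil => cases c <;> rfl
  | cons x s => cases x <;> simp [popq]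

private theorem stepA (s D : List Bool) (h x : Bool) (hD : EndF (x :: D)) :
    VT.step (vcfg (h :: s) (x :: D)) = some ⟨if h then .Q else .P, x, s.map not, D ++ [!h]⟩ := by
  have h1 := popD (!h) hD
  cases h with
  | true =>
    simp only [GTab.step, vcfg, VT, YG.FV, List.headD_cons, List.tail_cons] at h1 ⊢
    simp only [Bool.not_true] at h1
    rw [h1]
    simp
  | false =>
    simp only [GTab.step, vcfg, VT, YG.FV, List.headD_cons, List.tail_cons] at h1 ⊢
    simp only [Bool.not_false] at h1
    rw [h1]
    simp

private theorem step_e0 (s D : List Bool) (hD : EndF (false :: D)) :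
    VT.iter 2 (vcfg (true :: s) (false :: D)) = vcfg (s ++ [true]) (D ++ [false, false]) := by
  have h1 := stepA s D true false hD
  have h2 := popP s true
  simp only [Prod.mk.injEq] at h2
  show (VT.step ((VT.step (vcfg (true :: s) (false :: D))).getD _)).getD _ = _
  rw [h1]
  simp only [Option.getD_some, GTab.step, VT, YG.FV, if_true]
  simp only [vcfg]
  have h3 : (D ++ [false, false]).dropLast = D ++ [!true] := by
    have : D ++ [false, false] = (D ++ [false]) ++ [false] := by simp
    rw [this, List.dropLast_concat]; rfl
  rw [h3]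
  have h4 : (!true : Bool) = false := rfl
  rw [h4] at h2
  rw [h2.1, h2.2]

private theorem step_z0 (s D : List Bool) (hD : EndF (false :: D)) :
    VT.iter 2 (vcfg (false :: s) (false :: D)) = vcfg (s ++ [false]) (D ++ [true, false]) := by
  have h1 := stepA s D false false hD
  have h2 := popP s false
  simp only [Prod.mk.injEq] at h2
  show (VT.step ((VT.step (vcfg (false :: s) (false :: D))).getD _)).getD _ = _
  rw [h1]
  simp only [Option.getD_some, GTab.step, VT, YG.FV, Bool.false_eq_true, if_false]
  simp only [vcfg]
  have h3 : (D ++ [true, false]).dropLast = D ++ [!false] := by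
    have : D ++ [true, false] = (D ++ [true]) ++ [false] := by simp
    rw [this, List.dropLast_concat]; rfl
  rw [h3]
  have h4 : (!false : Bool) = true := rfl
  rw [h4] at h2
  rw [h2.1, h2.2]

private theorem step_e1 (s D : List Bool) (hD : EndF (true :: D)) :
    VT.iter 3 (vcfg (true :: true :: s) (true :: D)) = vcfg (s ++ [true, true]) (D ++ [false, false]) ∧
    VT.step (VT.iter 2 (vcfg (true :: false :: s) (true :: D))) = none := by
  refine ⟨?_, ?_⟩
  · have h1 := stepA (true :: s) D true true hD
    have h2 := popP s true
    have h2' := popP (s ++ [true]) true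
    simp only [Prod.mk.injEq] at h2 h2'
    show (VT.step ((VT.step ((VT.step (vcfg (true :: true :: s) (true :: D))).getD _)).getD _)).getD _ = _
    rw [h1]
    have h3 : (D ++ [false, false]).dropLast = D ++ [!true] := by
      have : D ++ [false, false] = (D ++ [false]) ++ [false] := by simp
      rw [this, List.dropLast_concat]; rfl
    have h5 : s ++ [true, true] = (s ++ [true]) ++ [true] := by simp
    simp only [Option.getD_some, GTab.step, VT, YG.FV, if_true, vcfg, h3]
    rw [h5]
    have h4 : (!true : Bool) = false := rfl
    rw [h4] at h2 h2'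
    have h6 : popq (List.map (fun x => !x) (true :: s) ++ [false]) = (false, s.map (fun x => !x) ++ [false]) := rfl
    rw [h6]
    simp only [Bool.xor_false]
    have h7 : List.map (fun x => !x) s ++ [false] = List.map not (s ++ [true]) := by simp
    rw [h7]
    rw [h2'.1, h2'.2]
    rfl
  · have h1 := stepA (false :: s) D true true hD
    show VT.step ((VT.step ((VT.step (vcfg (true :: false :: s) (true :: D))).getD _)).getD _) = none
    rw [h1]
    rfl

private theorem iter3 {c c1 c2 c3 : GC YG} (h1 : VT.step c = some c1) (h2 : VT.step c1 = some c2)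
    (h3 : VT.step c2 = some c3) : VT.iter 3 c = c3 := by
  show (VT.step ((VT.step ((VT.step c).getD _)).getD _)).getD _ = _
  rw [h1, Option.getD_some, h2, Option.getD_some, h3, Option.getD_some]

private theorem step_z1 (s D : List Bool) (hD : EndF (true :: false :: D)) :
    VT.iter 3 (vcfg (false :: s) (true :: false :: D)) = vcfg (s ++ [false]) (D ++ [true, false, false, false]) := by
  have h1 := stepA s (false :: D) false true hD
  have h2 := popP s false
  simp only [Prod.mk.injEq, Bool.not_false] at h2
  have h3 : VT.step (⟨.P, true, s.map not, false :: D ++ [true]⟩ : GC YG) =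
      some ⟨.P, false, s.map not, D ++ [true, false, false]⟩ := by
    simp [GTab.step, VT, YG.FV, popq, GTab.grow]
  have h4 : VT.step (⟨.P, false, s.map not, D ++ [true, false, false]⟩ : GC YG) =
      some (vcfg (s ++ [false]) (D ++ [true, false, false, false])) := by
    have h5 : (D ++ [true, false, false, false]).dropLast = D ++ [true, false, false] := by
      have : D ++ [true, false, false, false] = (D ++ [true, false, false]) ++ [false] := by simp
      rw [this, List.dropLast_concat]
    simp only [GTab.step, VT, YG.FV, vcfg, h5]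
    rw [h2.1, h2.2]
  refine iter3 h1 ?_ h4
  simpa using h3

private theorem iter_add (m n : ℕ) (c : GC YG) : VT.iter (m + n) c = VT.iter n (VT.iter m c) := by
  unfold GTab.iter
  rw [Nat.add_comm, Function.iterate_add_apply]

/-- a run of the system V is executed by the two-ring system -/
theorem vsys_run {u v w : List Bool} (h : VRun u v w) : ∀ (r R : List Bool), EndF (v ++ R) →
    ∃ n : ℕ, u.length ≤ n ∧ VT.iter n (vcfg (u ++ r) (v ++ R)) = vcfg (r ++ u) (R ++ dbl w) := by
  induction h with
  | nil =>
    intro r R _
    exact ⟨0, by simp, by simp [dbl, GTab.iter]⟩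
  | @e0 P v w _ ih =>
    intro r R hE
    obtain ⟨n, h1, h2⟩ := ih (r ++ [true]) (R ++ [false, false]) (by
      rw [← List.append_assoc]
      exact EndF.append (v ++ R) ⟨[false], rfl⟩)
    refine ⟨2 + n, by simp only [List.length_cons]; omega, ?_⟩
    rw [List.cons_append] at hE
    rw [iter_add, List.cons_append, List.cons_append, step_e0 _ _ hE, List.append_assoc, List.append_assoc, h2]
    simp [dbl]
  | @e1 P v w _ ih =>
    intro r R hE
    obtain ⟨n, h1, h2⟩ := ih (r ++ [true, true]) (R ++ [false, false]) (by
      rw [← List.append_assoc]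
      exact EndF.append (v ++ R) ⟨[false], rfl⟩)
    refine ⟨3 + n, by simp only [List.length_cons]; omega, ?_⟩
    rw [List.cons_append] at hE
    rw [iter_add, List.cons_append, List.cons_append, List.cons_append, (step_e1 _ _ hE).1, List.append_assoc,
      List.append_assoc, h2]
    simp [dbl]
  | @z0 P v w _ ih =>
    intro r R hE
    obtain ⟨n, h1, h2⟩ := ih (r ++ [false]) (R ++ [true, false]) (by
      rw [← List.append_assoc]
      exact EndF.append (v ++ R) ⟨[true], rfl⟩)
    refine ⟨2 + n, by simp only [List.length_cons]; omega, ?_⟩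
    rw [List.cons_append] at hE
    rw [iter_add, List.cons_append, List.cons_append, step_z0 _ _ hE, List.append_assoc, List.append_assoc, h2]
    simp [dbl]
  | @z1 P v w _ ih =>
    intro r R hE
    obtain ⟨n, h1, h2⟩ := ih (r ++ [false]) (R ++ [true, false, false, false]) (by
      rw [← List.append_assoc]
      exact EndF.append (v ++ R) ⟨[true, false, false], rfl⟩)
    refine ⟨3 + n, by simp only [List.length_cons]; omega, ?_⟩
    rw [List.cons_append, List.cons_append] at hE
    rw [iter_add, List.cons_append, List.cons_append, List.cons_append, step_z1 _ _ hE, List.append_assoc,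
      List.append_assoc, h2]
    simp [dbl]

theorem VT_halts_iter (n : ℕ) (c : GC YG) : VT.Halts (VT.iter n c) ↔ VT.Halts c := by
  constructor
  · rintro ⟨m, hm⟩
    exact ⟨n + m, by rw [iter_add]; exact hm⟩
  · rintro ⟨m, hm⟩
    refine ⟨m, ?_⟩
    rw [← iter_add, Nat.add_comm, GTab.none_mono VT c m hm]
    exact hm

/-- a halting run -/
theorem vsys_halt {P v : List Bool} (h : VHalt P v) (r R : List Bool) (hE : EndF (v ++ R)) :
    VT.Halts (vcfg (P ++ r) (v ++ R)) := by
  obtain ⟨P1, P2, v1, v2, w, rfl, rfl, h1⟩ := h
  obtain ⟨n, _, h2⟩ := vsys_run h1 (true :: false :: P2 ++ r) (true :: v2 ++ R) (by simpa using hE)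
  rw [← VT_halts_iter n]
  have e1 : P1 ++ true :: false :: P2 ++ r = P1 ++ (true :: false :: P2 ++ r) := by simp
  have e2 : v1 ++ true :: v2 ++ R = v1 ++ (true :: v2 ++ R) := by simp
  rw [e1, e2, h2]
  have hE2 : EndF (true :: (v2 ++ R ++ dbl w)) := by
    rcases List.eq_nil_or_concat w with rfl | ⟨w', c, rfl⟩
    · have h3 := h1.length_eq
      have h4 : v1 = [] := List.length_eq_zero_iff.mp (by simpa using h3)
      subst h4
      simpa [dbl] using hE
    · rw [List.concat_eq_append, dbl_append]
      exact ⟨true :: (v2 ++ R ++ dbl w' ++ [c]), by simp [dbl]⟩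
  exact ⟨2, (step_e1 _ _ hE2).2⟩

end P913
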